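import Pool.Agent.H14.PD.Stmts

/-!
Project PD (MP_822040_al), module AMB: the ambient group has a linear isoperimetric inequality.
-/

set_option autoImplicit false

namespace Pool.Agent.H14.PD

theorem pd_amb_comm (hPRB : PRB) {S : Type} (cm : S → S → Prop) (s : S) (u : List S)
    (h : ∀ t ∈ u, cm s t) : io cm s * pr cm u = pr cm u * io cm s := by
  obtain ⟨hp0, hp1, hp2, hp3, hp4, hp5⟩ := hPRB S cm
  induction u with
  | nil => rw [hp0]; simp
  | cons t u ih =>
    have h1 := ih (fun x hx => h x (List.mem_cons_of_mem _ hx))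
    have h2 := hp4 s t (h t (List.mem_cons_self ..))
    rw [hp1, ← mul_assoc, h2, mul_assoc, h1, mul_assoc]

theorem pd_amb_path (hPRB : PRB) (hTRB : TRB) (hTRC : TRC) (hDEH : DEH) (hARC : ARC)
    (hDEA : DEA) (Y S : Type) (C : Cx Y S) (y0 : Y) (hG : Grid C.cm C.lab C.act 6) :
    ∀ (n : ℕ) (c : List S), c.length ≤ n → Tr C.lab C.act y0 c → en C.act y0 c = y0 →
      pr C.cm c = 1 → Ar (C.rel y0) (73 * c.length) (wd C.act y0 c) := by
  obtain ⟨ha0, ha1, ha2, ha3, ha4, ha5, -⟩ := hARC (Y × S) (C.rel y0)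
  obtain ⟨hp0, hp1, hp2, hp3, hp4, hp5⟩ := hPRB S C.cm
  obtain ⟨hTr, hen, hwd, -⟩ := hTRB Y S C.lab C.act
  obtain ⟨-, hc2, -, -⟩ := hTRC Y S C
  intro n
  induction n with
  | zero =>
    intro c hc _ _ _
    have : c = [] := List.length_eq_zero_iff.1 (Nat.le_zero.1 hc)
    subst this
    exact ha0
  | succ n ih =>
    intro c hc hT he h1
    by_cases hne : c = []
    · subst hne; exact ha0
    obtain ⟨a, u, b, s, rfl, hu, hl⟩ := hDEH Y S C hG y0 c hT h1 hne
    obtain ⟨hT', he'⟩ := hc2 y0 a u b s hu hT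
    set ya := en C.act y0 a with hya
    have hTa : Tr C.lab C.act y0 a ∧ Tr C.lab C.act ya (s :: (u ++ s :: b)) := by
      rw [hTr] at hT; exact hT
    have hRa : C.Rc y0 ya := ⟨a, hTa.1, rfl⟩
    have hsplit : s :: (u ++ s :: b) = (s :: (u ++ [s])) ++ b := by simp
    have hTs : Tr C.lab C.act ya (s :: (u ++ [s])) ∧
        Tr C.lab C.act (en C.act ya (s :: (u ++ [s]))) b := by
      rw [← hTr, ← hsplit]; exact hTa.2
    have hes : en C.act ya ([] ++ u ++ []) = en C.act ya ([] ++ s :: (u ++ s :: [])) :=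
      (hc2 ya [] u [] s hu hTs.1).2
    have hes' : en C.act ya u = en C.act ya (s :: (u ++ [s])) := by simpa using hes
    have hD := hDEA Y S C y0 ya s u hRa hu hTs.1
    have hpr : pr C.cm (a ++ u ++ b) = 1 := by
      rw [← h1, hp2, hp2, hp2, hp1, hp2, hp1]
      have hcom := pd_amb_comm hPRB C.cm s u hu
      have : io C.cm s * (pr C.cm u * (io C.cm s * pr C.cm b)) = pr C.cm u * pr C.cm b := by
        rw [← mul_assoc, hcom, mul_assoc, ← mul_assoc (io C.cm s) (io C.cm s), hp3, one_mul]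
      rw [this, mul_assoc]
    have hlen : (a ++ s :: (u ++ s :: b)).length = (a ++ u ++ b).length + 2 := by
      simp only [List.length_append, List.length_cons]; omega
    have hI := ih (a ++ u ++ b) (by rw [hlen] at hc; omega) hT' (by rw [he', he]) hpr
    have hw : wd C.act y0 (a ++ s :: (u ++ s :: b)) =
        (wd C.act y0 a * (wd C.act ya (s :: (u ++ [s])) * (wd C.act ya u)⁻¹) *
          (wd C.act y0 a)⁻¹) * wd C.act y0 (a ++ u ++ b) := by
      rw [hsplit, hwd, hwd, hwd, hwd, hen, ← hya, hes']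
      group
    rw [hw]
    refine ha1 _ _ _ ?_ (ha3 _ _ _ _ (ha4 _ _ (wd C.act y0 a) hD) hI)
    rw [hlen]
    omega

theorem pd_amb : M_AMB := by
  intro hPRB hTRB hTRC hDEH hARC hTAU hPHI hPRR hDEA Y S C y0 T hG hT
  refine ⟨(T + 3) + 73 * (2 * T + 1), ?_⟩
  intro L hL
  obtain ⟨ha0, ha1, ha2, ha3, ha4, ha5, -⟩ := hARC (Y × S) (C.rel y0)
  obtain ⟨c, hc1, hc2, hc3, hc4, hc5⟩ := hPRR Y S C.toSq y0 T hT L
  have h1 : pr C.cm c = 1 := by rw [hc3, hL]
  have h2 := pd_amb_path hPRB hTRB hTRC hDEH hARC hDEA Y S C y0 hG c.length c le_rfl hc1 hc2 h1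
  have h3 := ha3 _ _ _ _ hc5 h2
  rw [inv_mul_cancel_right] at h3
  refine ha1 _ _ _ ?_ h3
  have : 73 * c.length ≤ 73 * ((2 * T + 1) * L.length) := Nat.mul_le_mul_left _ hc4
  calc (T + 3) * L.length + 73 * c.length ≤ (T + 3) * L.length + 73 * ((2 * T + 1) * L.length) :=
        Nat.add_le_add_left this _
    _ = ((T + 3) + 73 * (2 * T + 1)) * L.length := by ring

end Pool.Agent.H14.PD
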