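import Pool.Agent.H14.PD.Stmts

/-!
Project PD (MP_822040_al), module ARC: calculus of areas.
-/

set_option autoImplicit false

namespace Pool.Agent.H14.PD

theorem pd_arc_zero {X : Type} (R : Set (FreeGroup X)) : Ar R 0 1 :=
  ⟨[], by simp, by simp, by simp⟩

theorem pd_arc_mono {X : Type} {R : Set (FreeGroup X)} {n n' : ℕ} {w : FreeGroup X}
    (h : n ≤ n') (hw : Ar R n w) : Ar R n' w := by
  obtain ⟨L, h1, h2, h3⟩ := hw
  exact ⟨L, h1, h2, h3.trans h⟩

theorem pd_arc_mem {X : Type} {R : Set (FreeGroup X)} {r : FreeGroup X} (h : r ∈ R) :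
    Ar R 1 r :=
  ⟨[(1, r)], by simp [h], by simp, by simp⟩

theorem pd_arc_mul {X : Type} {R : Set (FreeGroup X)} {n n' : ℕ} {u v : FreeGroup X}
    (hu : Ar R n u) (hv : Ar R n' v) : Ar R (n + n') (u * v) := by
  obtain ⟨L, h1, h2, h3⟩ := hu
  obtain ⟨L', h1', h2', h3'⟩ := hv
  refine ⟨L ++ L', ?_, ?_, ?_⟩
  · intro p hp
    rcases List.mem_append.1 hp with hp | hp
    · exact h1 p hp
    · exact h1' p hp
  · rw [List.map_append, List.prod_append, h2, h2']
  · rw [List.length_append]; omega

theorem pd_arc_conj {X : Type} {R : Set (FreeGroup X)} {n : ℕ} {u : FreeGroup X}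
    (g : FreeGroup X) (hu : Ar R n u) : Ar R n (g * u * g⁻¹) := by
  obtain ⟨L, h1, h2, h3⟩ := hu
  refine ⟨L.map (fun p => (g * p.1, p.2)), ?_, ?_, ?_⟩
  · intro p hp
    obtain ⟨q, hq, rfl⟩ := List.mem_map.1 hp
    exact h1 q hq
  · rw [← h2]
    clear h1 h2 h3
    induction L with
    | nil => simp
    | cons a L ih =>
      rw [List.map_cons, List.map_cons, List.prod_cons, ih, List.map_cons, List.prod_cons]
      group
  · simpa using h3

theorem pd_arc_inv {X : Type} {R : Set (FreeGroup X)} {n : ℕ} {u : FreeGroup X}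
    (hu : Ar R n u) : Ar R n u⁻¹ := by
  obtain ⟨L, h1, h2, h3⟩ := hu
  refine ⟨L.reverse.map (fun p => (p.1, p.2⁻¹)), ?_, ?_, ?_⟩
  · intro p hp
    obtain ⟨q, hq, rfl⟩ := List.mem_map.1 hp
    have := h1 q (List.mem_reverse.1 hq)
    rcases this with h | h
    · right; simpa using h
    · left; exact h
  · rw [← h2]
    clear h1 h2 h3
    induction L with
    | nil => simp
    | cons a L ih =>
      rw [List.reverse_cons, List.map_append, List.map_append, List.prod_append, ih]
      simp only [List.map_cons, List.map_nil, List.prod_cons, List.prod_nil]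
      group
  · simpa using h3

theorem pd_arc : ARC := by
  intro X R
  refine ⟨pd_arc_zero R, fun n n' w h hw => pd_arc_mono h hw, fun r h => pd_arc_mem h,
    fun n n' u v hu hv => pd_arc_mul hu hv, fun n u g hu => pd_arc_conj g hu,
    fun n u hu => pd_arc_inv hu, ?_⟩
  intro w
  constructor
  · intro hw
    unfold Subgroup.normalClosure at hw
    induction hw using Subgroup.closure_induction with
    | mem x hx =>
      obtain ⟨r, hr, hc⟩ := Group.mem_conjugatesOfSet_iff.1 hx
      obtain ⟨g, hg⟩ := isConj_iff.1 hc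
      refine ⟨1, ?_⟩
      rw [← hg]
      exact pd_arc_conj g (pd_arc_mem hr)
    | one => exact ⟨0, pd_arc_zero R⟩
    | mul x y _ _ hx hy =>
      obtain ⟨n, hn⟩ := hx
      obtain ⟨m, hm⟩ := hy
      exact ⟨n + m, pd_arc_mul hn hm⟩
    | inv x _ hx =>
      obtain ⟨n, hn⟩ := hx
      exact ⟨n, pd_arc_inv hn⟩
  · rintro ⟨n, L, h1, h2, -⟩
    rw [← h2]
    apply Subgroup.list_prod_mem
    intro x hx
    obtain ⟨p, hp, rfl⟩ := List.mem_map.1 hx
    have hn : (Subgroup.normalClosure R).Normal := Subgroup.normalClosure_normal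
    apply hn.conj_mem
    rcases h1 p hp with h | h
    · exact Subgroup.subset_normalClosure h
    · have := (Subgroup.normalClosure R).inv_mem (Subgroup.subset_normalClosure h)
      simpa using this

end Pool.Agent.H14.PD
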