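import Pool.Agent.H14.PD.Stmts

/-!
Project PD (MP_822040_al), module NUM: the choice of the parameters.
-/

set_option autoImplicit false

namespace Pool.Agent.H14.PD

theorem pd_num_mu (d : ℕ) : ∃ mu : ℕ, 1 ≤ mu ∧ (2 * (48 * mu + 6)) ^ d ≤ 16 ^ mu := by
  have h := tendsto_pow_const_div_const_pow_of_one_lt d (r := (16 : ℝ)) (by norm_num)
  have h2 := (h.eventually (gt_mem_nhds (show (0 : ℝ) < 1 / 108 ^ d by positivity))).and
    (Filter.eventually_ge_atTop 1)
  obtain ⟨mu, hmu, h1⟩ := h2.exists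
  refine ⟨mu, h1, ?_⟩
  have h3 : (108 * mu : ℝ) ^ d ≤ 16 ^ mu := by
    rw [mul_pow]
    rw [div_lt_div_iff₀ (by positivity) (by positivity)] at hmu
    linarith
  have h4 : (108 * mu) ^ d ≤ 16 ^ mu := by exact_mod_cast h3
  refine le_trans (Nat.pow_le_pow_left ?_ d) h4
  omega

theorem pd_num : NUM := by
  intro d
  obtain ⟨mu, hmu, hK⟩ := pd_num_mu d
  set K := 48 * mu + 6 with hKdef
  set A := 4 * (24 * mu) * K with hA
  refine ⟨mu, 2 * A ^ d, hmu, ?_⟩
  intro n
  have hK2 : 2 * (24 * mu) + 6 = K := by omega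
  rw [hK2]
  -- the first `r` such that the next value exceeds `n`
  have hex : ∃ r, n < 4 * ((r + 1) * (24 * mu)) * K ^ (r + 1) := by
    refine ⟨n, ?_⟩
    have h1 : 1 ≤ K ^ (n + 1) := Nat.one_le_pow _ _ (by omega)
    have h2 : n + 1 ≤ (n + 1) * (24 * mu) := Nat.le_mul_of_pos_right _ (by omega)
    have h3 : 4 * ((n + 1) * (24 * mu)) ≤ 4 * ((n + 1) * (24 * mu)) * K ^ (n + 1) :=
      Nat.le_mul_of_pos_right _ h1
    omega
  classical
  let r := Nat.find hex
  have hr1 : n < 4 * ((r + 1) * (24 * mu)) * K ^ (r + 1) := Nat.find_spec hex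
  have hr0 : 4 * (r * (24 * mu)) * K ^ r ≤ n := by
    rcases Nat.eq_zero_or_pos r with h | h
    · rw [h]; simp
    · have hm := Nat.find_min hex (m := r - 1) (by omega)
      have e : r - 1 + 1 = r := by omega
      rw [e] at hm
      exact not_lt.1 hm
  have hn : n ≤ A * ((r + 1) * K ^ r) := by
    have : A * ((r + 1) * K ^ r) = 4 * ((r + 1) * (24 * mu)) * K ^ (r + 1) := by
      rw [hA, pow_succ]; ring
    rw [this]; exact hr1.le
  have hn2 : n ^ d ≤ A ^ d * ((2 * K) ^ d) ^ r := by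
    calc n ^ d ≤ (A * ((r + 1) * K ^ r)) ^ d := Nat.pow_le_pow_left hn d
      _ = A ^ d * ((r + 1) * K ^ r) ^ d := by rw [mul_pow]
      _ ≤ A ^ d * ((2 * K) ^ r) ^ d := by
          apply Nat.mul_le_mul_left
          apply Nat.pow_le_pow_left
          rw [mul_pow]
          apply Nat.mul_le_mul_right
          exact (Nat.lt_two_pow_self (n := r))
      _ = A ^ d * ((2 * K) ^ d) ^ r := by rw [← pow_mul, ← pow_mul, mul_comm r d]
  rcases Nat.eq_zero_or_pos r with h | h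
  · refine ⟨0, 0, by simp, Or.inl ⟨rfl, ?_⟩⟩
    rw [h] at hn2
    simp only [pow_zero, mul_one] at hn2
    omega
  · refine ⟨r, 4 * mu * r - 1, hr0, Or.inr ⟨?_, ?_⟩⟩
    · have h1 : 1 ≤ mu * r := Nat.mul_pos hmu h
      have h2 : r * (24 * mu) = 24 * (mu * r) := by ring
      have h3 : 4 * mu * r = 4 * (mu * r) := by ring
      omega
    · have h1 : 1 ≤ mu * r := Nat.mul_pos hmu h
      have h3 : 4 * mu * r = 4 * (mu * r) := by ring
      have h5 : ((2 * K) ^ d) ^ r ≤ 2 ^ (4 * mu * r) := by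
        calc ((2 * K) ^ d) ^ r ≤ (16 ^ mu) ^ r := Nat.pow_le_pow_left hK r
          _ = 2 ^ (4 * mu * r) := by
            rw [show (16 : ℕ) = 2 ^ 4 by norm_num, ← pow_mul, ← pow_mul, h3]
      have h6 : 2 ^ (4 * mu * r) = 2 * 2 ^ (4 * mu * r - 1) := by
        rw [← pow_succ']
        congr 1
        omega
      calc n ^ d ≤ A ^ d * ((2 * K) ^ d) ^ r := hn2
        _ ≤ A ^ d * (2 * 2 ^ (4 * mu * r - 1)) := by
            rw [← h6]; exact Nat.mul_le_mul_left _ h5
        _ = 2 * A ^ d * 2 ^ (4 * mu * r - 1) := by ring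

end Pool.Agent.H14.PD
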