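import Pool.Agent.H14.PD.Stmts

/-!
Project PD (MP_822040_al), module PHI: the labelling homomorphism.
-/

set_option autoImplicit false

namespace Pool.Agent.H14.PD

theorem pd_phi_of {Y S : Type} (Q : Sq Y S) (y0 y : Y) (s : S) (h : Q.Rc y0 y ∧ Q.lab y s) :
    Q.Phi y0 (FreeGroup.of (y, s)) =
      pr Q.cm (Q.tau y0 y) * io Q.cm s * (pr Q.cm (Q.tau y0 (Q.act y s)))⁻¹ := by
  unfold Sq.Phi
  rw [FreeGroup.lift_apply_of]
  simp only
  rw [if_pos h]

theorem pd_phi_of_not {Y S : Type} (Q : Sq Y S) (y0 y : Y) (s : S)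
    (h : ¬ (Q.Rc y0 y ∧ Q.lab y s)) :
    Q.Phi y0 (FreeGroup.of (y, s)) = 1 := by
  unfold Sq.Phi
  rw [FreeGroup.lift_apply_of]
  simp only
  rw [if_neg h]

theorem pd_phi : M_PHI := by
  intro hPRB hTRB hTAU Y S Q y0
  obtain ⟨hp0, hp1, hp2, hp3, hp4, hp5⟩ := hPRB S Q.cm
  obtain ⟨hTr, hen, hwd, hrv⟩ := hTRB Y S Q.lab Q.act
  have hrv := hrv Q.inv
  obtain ⟨ht0, ht1, ht2, ht3, ht4, ht5, -⟩ := hTAU Y S Q y0
  have h1 : ∀ y w, Q.Rc y0 y → Tr Q.lab Q.act y w →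
      Q.Phi y0 (wd Q.act y w) =
        pr Q.cm (Q.tau y0 y) * pr Q.cm w * (pr Q.cm (Q.tau y0 (en Q.act y w)))⁻¹ := by
    intro y w
    induction w generalizing y with
    | nil =>
      intro _ _
      simp [wd, en, hp0]
    | cons s w ih =>
      intro hy hw
      have hR : Q.Rc y0 (Q.act y s) := ht4 y [s] hy ⟨hw.1, trivial⟩
      have := ih (Q.act y s) hR hw.2
      simp only [wd, en, map_mul, this, pd_phi_of Q y0 y s ⟨hy, hw.1⟩, hp1]
      group
  have h2 : ∀ r ∈ Q.rel y0, Q.Phi y0 r = 1 := by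
    intro r hr
    rcases hr with ⟨y, s, hn, rfl⟩ | ⟨y, s, hy, hs, rfl⟩ | ⟨y, s, t, hy, hc, hT, he, rfl⟩ |
      ⟨y, hy, rfl⟩
    · exact pd_phi_of_not Q y0 y s hn
    · have hi := Q.inv y s hs
      rw [h1 y [s, s] hy ⟨hs, hi.1, trivial⟩]
      have : en Q.act y [s, s] = y := hi.2
      rw [this, hp1, hp1, hp0, mul_one, hp3]
      simp
    · rw [h1 y _ hy hT, he, hp1, hp1, hp1, hp1, hp0, mul_one]
      have : io Q.cm s * (io Q.cm t * (io Q.cm s * io Q.cm t)) = 1 := by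
        rw [hp4 s t hc]
        rw [← mul_assoc (io Q.cm t) (io Q.cm t), hp3, one_mul, hp3]
      rw [this]; simp
    · rw [h1 y0 _ ht3 (ht1 y), ht2 y hy, ht0, hp0]
      simp
  refine ⟨h1, h2, ?_, ?_⟩
  · intro w hw
    have : Subgroup.normalClosure (Q.rel y0) ≤ (Q.Phi y0).ker := by
      apply Subgroup.normalClosure_le_normal
      intro r hr
      exact h2 r hr
    exact this hw
  · intro u
    induction u using FreeGroup.induction_on with
    | C1 => exact ⟨[], trivial, rfl, by rw [hp0, map_one]⟩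
    | of x =>
      obtain ⟨y, s⟩ := x
      by_cases h : Q.Rc y0 y ∧ Q.lab y s
      · have hR : Q.Rc y0 (Q.act y s) := ht4 y [s] h.1 ⟨h.2, trivial⟩
        have hb := hrv y0 _ (ht1 (Q.act y s))
        rw [ht2 _ hR] at hb
        refine ⟨Q.tau y0 y ++ (s :: (Q.tau y0 (Q.act y s)).reverse), ?_, ?_, ?_⟩
        · rw [hTr]
          refine ⟨ht1 y, ?_⟩
          rw [ht2 y h.1]
          exact ⟨h.2, hb.1⟩
        · rw [hen, ht2 y h.1]
          exact hb.2
        · rw [hp2, hp1, hp5, pd_phi_of Q y0 y s h]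
          group
      · exact ⟨[], trivial, rfl, by rw [hp0, pd_phi_of_not Q y0 y s h]⟩
    | inv_of x ih =>
      obtain ⟨c, hc1, hc2, hc3⟩ := ih
      have := hrv y0 c hc1
      rw [hc2] at this
      exact ⟨c.reverse, this.1, this.2, by rw [hp5, hc3, map_inv]⟩
    | mul x y hx hy =>
      obtain ⟨c, hc1, hc2, hc3⟩ := hx
      obtain ⟨d, hd1, hd2, hd3⟩ := hy
      refine ⟨c ++ d, ?_, ?_, ?_⟩
      · rw [hTr, hc2]; exact ⟨hc1, hd1⟩
      · rw [hen, hc2, hd2]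
      · rw [hp2, hc3, hd3, map_mul]

end Pool.Agent.H14.PD
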