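import Pool.Agent.H14.PD.Stmts

/-!
Project PD (MP_822040_al), module TAU: the chosen paths.
-/

set_option autoImplicit false

namespace Pool.Agent.H14.PD

theorem pd_tau : M_TAU := by
  intro hTRB Y S Q y0
  obtain ⟨hTr, hen, -, -⟩ := hTRB Y S Q.lab Q.act
  have h0 : Q.tau y0 y0 = [] := by simp [Sq.tau]
  have h2 : ∀ y, Tr Q.lab Q.act y0 (Q.tau y0 y) := by
    intro y
    unfold Sq.tau
    split_ifs with h h'
    · trivial
    · exact (Classical.choose_spec h').1
    · trivial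
  have h3 : ∀ y, Q.Rc y0 y → en Q.act y0 (Q.tau y0 y) = y := by
    intro y hy
    unfold Sq.tau
    split_ifs with h
    · rw [h]; rfl
    · exact (Classical.choose_spec hy).2
  refine ⟨h0, h2, h3, ⟨[], trivial, rfl⟩, ?_, ?_, ?_⟩
  · rintro y w ⟨v, hv, hve⟩ hw
    refine ⟨v ++ w, ?_, ?_⟩
    · rw [hTr]
      refine ⟨hv, ?_⟩
      rw [hve]; exact hw
    · rw [hen, hve]
  · rintro y s hs ⟨v, hv, hve⟩
    have hi := Q.inv y s hs
    refine ⟨v ++ [s], ?_, ?_⟩
    · rw [hTr]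
      refine ⟨hv, ?_⟩
      rw [hve]; exact ⟨hi.1, trivial⟩
    · rw [hen, hve]; exact hi.2
  · intro hf
    obtain ⟨T, hT⟩ := (hf.image (fun y => (Q.tau y0 y).length)).bddAbove
    refine ⟨T, fun y => ?_⟩
    by_cases hy : Q.Rc y0 y
    · exact hT ⟨y, hy, rfl⟩
    · have : Q.tau y0 y = [] := by
        unfold Sq.tau
        split_ifs <;> rfl
      rw [this]; simp

end Pool.Agent.H14.PD
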