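import Pool.Agent.H14.PD.Stmts

/-!
Project PD (MP_822040_al), module THT: the homomorphism from the slab group to the ambient group.
-/

set_option autoImplicit false

namespace Pool.Agent.H14.PD

open Classical in
theorem pd_tht_phi {Y S : Type} (Q : Sq Y S) (y0 y : Y) (s : S) :
    Q.Phi y0 (FreeGroup.of (y, s)) = if Q.Rc y0 y ∧ Q.lab y s then
      pr Q.cm (Q.tau y0 y) * io Q.cm s * (pr Q.cm (Q.tau y0 (Q.act y s)))⁻¹ else 1 := by
  unfold Sq.Phi
  rw [FreeGroup.lift_apply_of]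

open Classical in
theorem pd_tht : M_THT := by
  intro hPRB hTRB hTAU hPHI hSLP V S M a b y0
  obtain ⟨hp0, hp1, hp2, hp3, hp4, hp5⟩ := hPRB S M.cm
  obtain ⟨hTr, hen, hwd, hrv⟩ := hTRB (V × ℤ) S (M.slab a b).lab (M.slab a b).act
  have hrv := hrv (M.slab a b).inv
  obtain ⟨ht0, ht1, ht2, ht3, ht4, ht5, -⟩ := hTAU (V × ℤ) S (M.slab a b) y0
  obtain ⟨hs0, -, -, -⟩ := hPHI V S M.toSq y0.1
  obtain ⟨hq1, hq2, hq3, -⟩ := hSLP V S M a b
  obtain ⟨hv0, -, -, hv3, -, -, -⟩ := hTAU V S M.toSq y0.1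
  -- closed paths of the slab
  have key : ∀ c : List S, Tr (M.slab a b).lab (M.slab a b).act y0 c →
      en (M.slab a b).act y0 c = y0 →
      M.Phi y0.1 (wd M.act y0.1 c) = pr M.cm c := by
    intro c hc hce
    have h1 : Tr M.lab M.act y0.1 c := (hq3 y0 c).1 (hq2 y0 c hc)
    have h2 : en M.act y0.1 c = y0.1 := by
      rw [← hq1 y0 c]
      have : en M.lact y0 c = y0 := hce
      rw [this]
    rw [hs0 y0.1 c hv3 h1, h2, hv0, hp0]
    simp
  let c : V × ℤ → S → List S := fun y s =>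
    (M.slab a b).tau y0 y ++ (s :: ((M.slab a b).tau y0 (M.lact y s)).reverse)
  let f : (V × ℤ) × S → FreeGroup (V × S) := fun p =>
    if (M.slab a b).Rc y0 p.1 ∧ (M.slab a b).lab p.1 p.2 then wd M.act y0.1 (c p.1 p.2) else 1
  refine ⟨FreeGroup.lift f, ?_⟩
  intro w
  have : (M.Phi y0.1).comp (FreeGroup.lift f) = M.sPhi a b y0 := by
    apply FreeGroup.ext_hom
    rintro ⟨y, s⟩
    have hphi : M.sPhi a b y0 (FreeGroup.of (y, s)) =
        if (M.slab a b).Rc y0 y ∧ (M.slab a b).lab y s then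
          pr M.cm ((M.slab a b).tau y0 y) * io M.cm s *
            (pr M.cm ((M.slab a b).tau y0 (M.lact y s)))⁻¹
        else 1 := pd_tht_phi (M.slab a b) y0 y s
    rw [MonoidHom.comp_apply, FreeGroup.lift_apply_of, hphi]
    simp only [f]
    split_ifs with h
    · have hR : (M.slab a b).Rc y0 (M.lact y s) := ht4 y [s] h.1 ⟨h.2, trivial⟩
      have hb := hrv y0 _ (ht1 (M.lact y s))
      rw [ht2 _ hR] at hb
      rw [key (c y s)]
      · simp only [c]
        rw [hp2, hp1, hp5, mul_assoc]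
      · simp only [c]
        rw [hTr]
        refine ⟨ht1 y, ?_⟩
        rw [ht2 y h.1]
        exact ⟨h.2, hb.1⟩
      · simp only [c]
        rw [hen, ht2 y h.1]
        exact hb.2
    · exact map_one _
  exact DFunLike.congr_fun this w

end Pool.Agent.H14.PD
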